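import Pool.Agent.Y754.SQ.Ring
import Pool.Agent.Y754.SQ.One

/-!
# Every countably generated algebra embeds in a two-generated algebra isomorphic to its own square

Over every commutative ring `K`, every countably generated `K`-algebra embeds in a `K`-algebra `R`
generated by two elements with `R ≅ R × R` and `R ≅ Mₙ(R)` for all `n ≥ 1`.  Over a Noetherian `K`
no nonzero algebra generated by one element is isomorphic to its own square.
-/

set_option autoImplicit false

namespace Pool.Agent.Results.MP_1ea425_al.TwoGeneratorEmbedding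

universe u v

theorem result :
    (∀ (K : Type u) [CommRing K] (S : Type v) [Ring S] [Algebra K S],
      (∃ a : ℕ → S, Algebra.adjoin K (Set.range a) = ⊤) →
      ∃ (R : Type v) (_ : Ring R) (_ : Algebra K R),
        (∃ i : S →ₐ[K] R, Function.Injective i) ∧
        (∃ x y : R, Algebra.adjoin K {x, y} = ⊤) ∧
        Nonempty (R ≃ₐ[K] R × R) ∧
        ∀ n : ℕ, 1 ≤ n → Nonempty (R ≃ₐ[K] Matrix (Fin n) (Fin n) R)) ∧
    (∀ (K : Type u) [CommRing K] [IsNoetherianRing K] (R : Type v) [Ring R] [Algebra K R]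
      [Nontrivial R] (x : R), Algebra.adjoin K {x} = ⊤ → IsEmpty (R ≃+* R × R)) := by
  refine ⟨fun K _ S _ _ => ?_, fun K _ _ R _ _ _ x hx => Pool.Agent.Y754.SQ.one_gen K R x hx⟩
  rintro ⟨a, ha⟩
  exact ⟨Pool.Agent.Y754.SQ.R (K := K) a, inferInstance, inferInstance,
    Pool.Agent.Y754.SQ.embed a ha, Pool.Agent.Y754.SQ.two_gen a, Pool.Agent.Y754.SQ.square a,
    fun n hn => Pool.Agent.Y754.SQ.matrix a n hn⟩

end Pool.Agent.Results.MP_1ea425_al.TwoGeneratorEmbedding
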